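import Pool.Agent.Helper63.HM.Hall

/-!
# Rainbow matchings with finite sets of resources

`T` is a finite set of vertices; every vertex `t` has a class `col t` and a finite set of
resources `res t`.  If every class of `U` has weight at least one and the total weight on the
resources of every vertex is at most one, then there is a choice of one vertex for every class
with pairwise disjoint sets of resources.
-/

set_option autoImplicit false
set_option linter.unusedSectionVars false

namespace Pool.Agent.Helper83.BQ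

open Finset

theorem fsum_sub {α : Type} [DecidableEq α] (T : Finset α) (p : α → Prop) [DecidablePred p]
    (w : α → ℝ) :
    ∑ᶠ v ∈ {v : {t // t ∈ T} | p v.1}, w v.1 = ∑ t ∈ T.filter p, w t := by
  classical
  have h1 : {v : {t // t ∈ T} | p v.1} = ((T.attach.filter (fun v => p v.1) : Finset _) :
      Set {t // t ∈ T}) := by
    ext v
    simp
  rw [h1, finsum_mem_coe_finset, Finset.sum_filter, Finset.sum_filter]
  exact Finset.sum_attach T (fun t => if p t then w t else 0)

theorem rainbow_res {α X β : Type} [DecidableEq α] [DecidableEq X] [DecidableEq β]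
    [Finite β] [Nonempty α] (T : Finset α) (U : Finset X) (col : α → X)
    (res : α → Finset β) (w : α → ℝ) (hw0 : ∀ t ∈ T, 0 ≤ w t)
    (hcol : ∀ t ∈ T, col t ∈ U)
    (hload : ∀ t ∈ T, ∑ q ∈ res t, ∑ s ∈ T.filter (fun s => q ∈ res s), w s ≤ 1)
    (hx : ∀ x ∈ U, 1 ≤ ∑ t ∈ T.filter (fun t => col t = x), w t) :
    ∃ f : X → α, (∀ x ∈ U, f x ∈ T ∧ col (f x) = x) ∧
      ∀ x ∈ U, ∀ y ∈ U, x ≠ y → Disjoint (res (f x)) (res (f y)) := by
  classical
  obtain ⟨f, hf1, -, hf2⟩ := Pool.Agent.Helper63.HM.rainbow (V := {t // t ∈ T}) (Q := β)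
    (X := {x // x ∈ U})
    (fun v q => q ∈ res v.1)
    (fun v => ⟨col v.1, hcol v.1 v.2⟩) (fun v => w v.1) (fun v => hw0 v.1 v.2)
    (by
      intro v _
      have h1 : {q : β | q ∈ res v.1} = ((res v.1 : Finset β) : Set β) := by
        ext q
        simp
      rw [h1, finsum_mem_coe_finset]
      have h2 : ∀ q : β, ∑ᶠ u ∈ {u : {t // t ∈ T} | q ∈ res u.1}, w u.1 =
          ∑ s ∈ T.filter (fun s => q ∈ res s), w s := fun q =>
        fsum_sub T (fun s => q ∈ res s) w
      simp only [h2]
      exact hload v.1 v.2)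
    (by
      intro x
      have h1 : {v : {t // t ∈ T} | (⟨col v.1, hcol v.1 v.2⟩ : {x // x ∈ U}) = x} =
          {v : {t // t ∈ T} | col v.1 = x.1} := by
        ext v
        simp [Subtype.ext_iff]
      rw [h1, fsum_sub T (fun t => col t = x.1) w]
      exact hx x.1 x.2)
  obtain ⟨a0⟩ := (inferInstance : Nonempty α)
  refine ⟨fun x => if h : x ∈ U then (f ⟨x, h⟩).1 else a0, ?_, ?_⟩
  · intro x hx
    simp only [dif_pos hx]
    exact ⟨(f ⟨x, hx⟩).2, congrArg Subtype.val (hf1 ⟨x, hx⟩)⟩
  · intro x hx y hy hxy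
    simp only [dif_pos hx, dif_pos hy]
    have hne : (⟨x, hx⟩ : {x // x ∈ U}) ≠ ⟨y, hy⟩ := fun h => hxy (congrArg Subtype.val h)
    rw [Finset.disjoint_left]
    intro q h1 h2
    exact hf2 _ _ hne q ⟨h1, h2⟩

/-- The version with constant weights: `M` vertices at least in every class and at most `M`
(vertex, resource) incidences at the resources of a vertex. -/
theorem rainbow_card {α X β : Type} [DecidableEq α] [DecidableEq X] [DecidableEq β]
    [Finite β] [Nonempty α] (T : Finset α) (U : Finset X) (col : α → X)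
    (res : α → Finset β) (M : ℕ) (hM : 0 < M)
    (hcol : ∀ t ∈ T, col t ∈ U)
    (hload : ∀ t ∈ T, ∑ q ∈ res t, (T.filter (fun s => q ∈ res s)).card ≤ M)
    (hx : ∀ x ∈ U, M ≤ (T.filter (fun t => col t = x)).card) :
    ∃ f : X → α, (∀ x ∈ U, f x ∈ T ∧ col (f x) = x) ∧
      ∀ x ∈ U, ∀ y ∈ U, x ≠ y → Disjoint (res (f x)) (res (f y)) := by
  have hM' : (0 : ℝ) < M := by exact_mod_cast hM
  refine rainbow_res T U col res (fun _ => 1 / (M : ℝ)) (fun _ _ => by positivity) hcol ?_ ?_
  · intro t ht
    have h1 := hload t ht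
    have h2 : ((∑ q ∈ res t, (T.filter (fun s => q ∈ res s)).card : ℕ) : ℝ) ≤ M := by
      exact_mod_cast h1
    push_cast at h2
    simp only [Finset.sum_const, nsmul_eq_mul]
    rw [← Finset.sum_mul, mul_one_div, div_le_one hM']
    exact h2
  · intro x hxU
    have h1 := hx x hxU
    have h2 : (M : ℝ) ≤ ((T.filter (fun t => col t = x)).card : ℝ) := by exact_mod_cast h1
    simp only [Finset.sum_const, nsmul_eq_mul]
    rw [mul_one_div, le_div_iff₀ hM', one_mul]
    exact h2

end Pool.Agent.Helper83.BQ
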