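import Pool.Agent.Helper63.HM.Cone
import Pool.Agent.Helper83.BQ.RainbowRes

/-!
# Rank four: a large plane

If every line carries at most `s` points and some plane carries at least `s ^ 2 + 3 * s + 1`
points, then rank four data exist.
-/

set_option autoImplicit false
set_option linter.unusedSectionVars false

namespace Pool.Agent.Helper83.BQ

open Pool.Agent.Helper28.BPack Pool.Agent.Helper61.Motz Pool.Agent.Helper63.HM

variable {L : Type} [Lattice L] [BoundedOrder L] [Finite L] [IsUpperModularLattice L]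

theorem sum_three_le {β : Type} [DecidableEq β] (f : β → ℕ) (a b c : β) :
    ∑ q ∈ ({a, b, c} : Finset β), f q ≤ f a + f b + f c := by
  have h : ∀ (a : β) (S : Finset β), ∑ q ∈ insert a S, f q ≤ f a + ∑ q ∈ S, f q := by
    intro a S
    by_cases h : a ∈ S
    · rw [Finset.insert_eq_of_mem h]; omega
    · rw [Finset.sum_insert h]
  have h1 := h a {b, c}
  have h2 := h b {c}
  rw [Finset.sum_singleton] at h2
  omega

theorem arith_mono {N s k : ℤ} (hk0 : 0 ≤ k) (hks : k ≤ s) (hN : s ^ 2 + 3 * s + 1 ≤ N) :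
    (N - k) * (k * (k - 1)) ≤ (N - s) * (s * (s - 1)) := by
  obtain ⟨j, rfl⟩ : ∃ j, s = k + j := ⟨s - k, by ring⟩
  have hj : 0 ≤ j := by linarith
  rcases hj.eq_or_lt with h | h
  · rw [← h]; simp
  · have h1 : 1 ≤ j := h
    have h2 : k + j ≤ N - k := by nlinarith
    have h3 : 0 ≤ k + j - 1 := by linarith
    have h4 : k + j - 1 ≤ 2 * k + j - 1 := by linarith
    have h5 : (k + j) * (k + j - 1) ≤ (N - k) * (2 * k + j - 1) :=
      mul_le_mul h2 h4 h3 (by linarith)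
    have h6 : (N - (k + j)) * ((k + j) * (k + j - 1)) - (N - k) * (k * (k - 1)) =
        j * ((N - k) * (2 * k + j - 1) - (k + j) * (k + j - 1)) := by ring
    have h7 : 0 ≤ j * ((N - k) * (2 * k + j - 1) - (k + j) * (k + j - 1)) :=
      mul_nonneg hj (by linarith)
    linarith

theorem arith_total {N s : ℤ} (hs : 1 ≤ s) (hN : s ^ 2 + 3 * s + 1 ≤ N) :
    (N - s) * (s * (s - 1)) + 4 * ((s - 1) * (N - 1)) ≤ (N - 1) * (N - s) := by
  obtain ⟨m, rfl⟩ : ∃ m, N = s ^ 2 + 3 * s + 1 + m := ⟨N - (s ^ 2 + 3 * s + 1), by ring⟩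
  have hm : 0 ≤ m := by linarith
  have h6 : (s ^ 2 + 3 * s + 1 + m - 1) * (s ^ 2 + 3 * s + 1 + m - s) -
      ((s ^ 2 + 3 * s + 1 + m - s) * (s * (s - 1)) +
        4 * ((s - 1) * (s ^ 2 + 3 * s + 1 + m - 1))) =
      16 * s + m * ((s + 1) ^ 2 + 4) + m ^ 2 := by ring
  have h7 : 0 ≤ 16 * s + m * ((s + 1) ^ 2 + 4) + m ^ 2 := by positivity
  linarith

section

variable [DecidableEq L] [DecidableRel (α := L) (· ≤ ·)]

/-- Two planes share at most `s` points. -/
theorem card_two_planes {A : Finset L} (hA : ∀ a ∈ A, IsAtom a) {s : ℕ} (hs1 : 1 ≤ s)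
    (hs : ∀ g, rk g = 2 → (A.filter (· ≤ g)).card ≤ s) {P Q : L} (hP : rk P = 3)
    (hQ : rk Q = 3) (hne : P ≠ Q) : ((A.filter (· ≤ Q)).filter (· ≤ P)).card ≤ s := by
  by_cases h : ((A.filter (· ≤ Q)).filter (· ≤ P)).card ≤ 1
  · omega
  · obtain ⟨a, ha, b, hb, hab⟩ := Finset.one_lt_card.mp (not_le.mp h)
    rw [Finset.mem_filter, Finset.mem_filter] at ha hb
    obtain ⟨⟨ha1, ha2⟩, ha3⟩ := ha
    obtain ⟨⟨hb1, hb2⟩, hb3⟩ := hb
    refine le_trans (Finset.card_le_card fun x hx => ?_)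
      (hs (a ⊔ b) (rk_line (hA a ha1) (hA b hb1) hab))
    rw [Finset.mem_filter, Finset.mem_filter] at hx
    obtain ⟨⟨hx1, hx2⟩, hx3⟩ := hx
    rw [Finset.mem_filter]
    refine ⟨hx1, ?_⟩
    by_contra hcon
    have h1 : rk (a ⊔ b ⊔ x) = 3 := by
      rw [rk_sup_atom (hA x hx1) hcon, rk_line (hA a ha1) (hA b hb1) hab]
    have h2 : a ⊔ b ⊔ x = P := eq_of_le_of_rk (sup_le (sup_le ha3 hb3) hx3) (by rw [h1, hP])
    have h3 : a ⊔ b ⊔ x = Q := eq_of_le_of_rk (sup_le (sup_le ha2 hb2) hx2) (by rw [h1, hQ])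
    exact hne (h2.symm.trans h3)

/-- **The large plane**, the plane `Q` being a largest one. -/
theorem crit4_bigplane_max {A : Finset L} (hA : ∀ a ∈ A, IsAtom a)
    (hr : rk (A.sup id) = 4) (s : ℕ) (hs : ∀ g, rk g = 2 → (A.filter (· ≤ g)).card ≤ s)
    {Q : L} (hQ : rk Q = 3) (hN : s ^ 2 + 3 * s + 1 ≤ (A.filter (· ≤ Q)).card)
    (hmax : ∀ H, rk H = 3 → (A.filter (· ≤ H)).card ≤ (A.filter (· ≤ Q)).card) :
    Crit4 A := by
  set P := A.filter (· ≤ Q) with hPdef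
  have mP : ∀ x, x ∈ P ↔ x ∈ A ∧ x ≤ Q := fun x => Finset.mem_filter
  -- a point off a given element of rank at most three
  have hex : ∀ x : L, rk x < 4 → ∃ a ∈ A, ¬ a ≤ x := by
    intro x hx
    by_contra hcon
    push Not at hcon
    have h1 : A.sup id ≤ x := Finset.sup_le hcon
    have h2 := rk_mono h1
    omega
  -- `s` is at least two
  have hs2 : 2 ≤ s := by
    obtain ⟨a, ha, -⟩ := hex ⊥ (by rw [rk_bot]; omega)
    obtain ⟨b, hb, hba⟩ := hex a (by rw [rk_atom (hA a ha)]; omega)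
    have hab : a ≠ b := fun h => hba h.symm.le
    refine le_trans ?_ (hs (a ⊔ b) (rk_line (hA a ha) (hA b hb) hab))
    rw [← Finset.card_pair hab]
    refine Finset.card_le_card fun x hx => ?_
    rw [Finset.mem_insert, Finset.mem_singleton] at hx
    rw [Finset.mem_filter]
    rcases hx with rfl | rfl
    · exact ⟨ha, le_sup_left⟩
    · exact ⟨hb, le_sup_right⟩
  have hNs : s + 2 ≤ P.card := by nlinarith
  -- the plane `Q` is spanned by its points
  have hPr : rk (P.sup id) = 3 := by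
    have h1 : P.sup id ≤ Q := Finset.sup_le fun x hx => ((mP x).mp hx).2
    have h2 := rk_mono h1
    by_contra hcon
    obtain ⟨a, ha, b, hb, hab⟩ := Finset.one_lt_card.mp (show 1 < P.card by omega)
    have ha' := (mP a).mp ha
    have hb' := (mP b).mp hb
    have h3 : rk (a ⊔ b) = 2 := rk_line (hA a ha'.1) (hA b hb'.1) hab
    have h4 : a ⊔ b = P.sup id := eq_of_le_of_rk
      (sup_le (Finset.le_sup (f := id) ha) (Finset.le_sup (f := id) hb)) (by omega)
    have h5 : P.card ≤ s := by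
      refine le_trans (Finset.card_le_card fun x hx => ?_) (hs (a ⊔ b) h3)
      rw [Finset.mem_filter]
      exact ⟨((mP x).mp hx).1, h4 ▸ Finset.le_sup (f := id) hx⟩
    omega
  have h3 : Crit3 P := Pool.Agent.Helper80.BP.crit3_all P (fun a ha => hA a ((mP a).mp ha).1) hPr
  obtain ⟨o, ho, hoQ⟩ := hex Q (by omega)
  have hB4 := crit4_base hA hQ ho hoQ h3
  have hnB : ∀ x, x ∈ A → x ∉ insert o P → ¬ x ≤ Q ∧ x ≠ o := by
    intro x hx h
    rw [Finset.mem_insert, mP] at h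
    push Not at h
    exact ⟨h.2 hx, h.1⟩
  have hBm : ∀ a, a ∈ insert o P → a = o ∨ (a ∈ A ∧ a ≤ Q) := by
    intro a ha
    rcases Finset.mem_insert.mp ha with h | h
    · exact Or.inl h
    · exact Or.inr ((mP a).mp h)
  -- lines and planes through points off `Q`
  have hzy : ∀ z ∈ A, ¬ z ≤ Q → ∀ y ∈ P, z ≠ y := fun z _ hzQ y hy h =>
    hzQ (h ▸ ((mP y).mp hy).2)
  have rl : ∀ z ∈ A, ¬ z ≤ Q → ∀ y ∈ P, rk (z ⊔ y) = 2 := fun z hz hzQ y hy =>
    rk_line (hA z hz) (hA y ((mP y).mp hy).1) (hzy z hz hzQ y hy)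
  have hone : ∀ g : L, rk g = 2 → ¬ g ≤ Q → ∀ y ∈ P, ∀ y' ∈ P, y ≤ g → y' ≤ g → y = y' := by
    intro g hg hgQ y hy y' hy' h1 h2
    by_contra hne
    have h4 := line_eq (hA y ((mP y).mp hy).1) (hA y' ((mP y').mp hy').1) hne h1 h2 hg
    exact hgQ (h4 ▸ sup_le ((mP y).mp hy).2 ((mP y').mp hy').2)
  have rp : ∀ z ∈ A, ¬ z ≤ Q → ∀ y ∈ P, ∀ y' ∈ P, y ≠ y' → rk (z ⊔ y ⊔ y') = 3 := by
    intro z hz hzQ y hy y' hy' hne
    rw [rk_sup_atom (hA y' ((mP y').mp hy').1), rl z hz hzQ y hy]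
    intro h
    exact hne (hone (z ⊔ y) (rl z hz hzQ y hy) (fun h' => hzQ (le_sup_left.trans h')) y hy y' hy'
      le_sup_right h)
  -- the vertices
  set U : Finset L := A.filter (fun z => ¬ z ≤ Q ∧ z ≠ o) with hU
  have mU : ∀ z, z ∈ U ↔ z ∈ A ∧ ¬ z ≤ Q ∧ z ≠ o := fun z => Finset.mem_filter
  set T : Finset (L × L × L) := (A ×ˢ P ×ˢ P).filter
    (fun t => ¬ t.1 ≤ Q ∧ t.1 ≠ o ∧ t.2.1 ≠ t.2.2 ∧ ¬ o ≤ t.1 ⊔ t.2.1 ⊔ t.2.2) with hT
  have mT : ∀ t : L × L × L, t ∈ T ↔ (t.1 ∈ A ∧ t.2.1 ∈ P ∧ t.2.2 ∈ P) ∧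
      ¬ t.1 ≤ Q ∧ t.1 ≠ o ∧ t.2.1 ≠ t.2.2 ∧ ¬ o ≤ t.1 ⊔ t.2.1 ⊔ t.2.2 := by
    intro t
    rw [hT, Finset.mem_filter, Finset.mem_product, Finset.mem_product]
  set N := P.card with hNdef
  -- the load of a line
  have hlineload : ∀ g : L, rk g = 2 → ¬ g ≤ Q → ∀ y0 ∈ P, y0 ≤ g →
      (T.filter (fun t => g ∈ ({t.1 ⊔ t.2.1, t.1 ⊔ t.2.2, t.1 ⊔ t.2.1 ⊔ t.2.2} : Finset L))).card ≤
        2 * ((s - 1) * (N - 1)) := by
    intro g hg hgQ y0 hy0 hy0g
    set X := (A.filter (· ≤ g)).erase y0 with hX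
    set Y := P.erase y0 with hY
    have hXc : X.card ≤ s - 1 := by
      rw [hX, Finset.card_erase_of_mem (Finset.mem_filter.mpr ⟨((mP y0).mp hy0).1, hy0g⟩)]
      have := hs g hg
      omega
    have hYc : Y.card = N - 1 := Finset.card_erase_of_mem hy0
    have hsub : T.filter (fun t => g ∈ ({t.1 ⊔ t.2.1, t.1 ⊔ t.2.2, t.1 ⊔ t.2.1 ⊔ t.2.2} :
        Finset L)) ⊆ (X ×ˢ Y).image (fun p => (p.1, y0, p.2)) ∪
          (X ×ˢ Y).image (fun p => (p.1, p.2, y0)) := by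
      rintro ⟨z, y, y'⟩ ht
      rw [Finset.mem_filter, mT] at ht
      obtain ⟨⟨⟨hz, hy, hy'⟩, hzQ, hzo, hne, hno⟩, hg'⟩ := ht
      simp only [Finset.mem_insert, Finset.mem_singleton] at hz hy hy' hzQ hzo hne hno hg'
      rw [Finset.mem_union, Finset.mem_image, Finset.mem_image]
      rcases hg' with h | h | h
      · left
        have e : y = y0 := hone g hg hgQ y hy y0 hy0 (h ▸ le_sup_right) hy0g
        refine ⟨(z, y'), ?_, by rw [e]⟩
        rw [Finset.mem_product, hX, hY, Finset.mem_erase, Finset.mem_erase, Finset.mem_filter]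
        exact ⟨⟨hzy z hz hzQ y0 hy0, hz, h ▸ le_sup_left⟩, fun h' => hne (e.trans h'.symm), hy'⟩
      · right
        have e : y' = y0 := hone g hg hgQ y' hy' y0 hy0 (h ▸ le_sup_right) hy0g
        refine ⟨(z, y), ?_, by rw [e]⟩
        rw [Finset.mem_product, hX, hY, Finset.mem_erase, Finset.mem_erase, Finset.mem_filter]
        exact ⟨⟨hzy z hz hzQ y0 hy0, hz, h ▸ le_sup_left⟩, fun h' => hne (h'.trans e.symm), hy⟩
      · have h5 := rp z hz hzQ y hy y' hy' hne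
        rw [← h] at h5
        omega
    have h1 := Finset.card_le_card hsub
    have h2 := Finset.card_union_le ((X ×ˢ Y).image (fun p => (p.1, y0, p.2)))
      ((X ×ˢ Y).image (fun p => (p.1, p.2, y0)))
    have h3 : ((X ×ˢ Y).image (fun p => (p.1, y0, p.2))).card ≤ X.card * Y.card :=
      Finset.card_image_le.trans (by rw [Finset.card_product])
    have h4 : ((X ×ˢ Y).image (fun p => (p.1, p.2, y0))).card ≤ X.card * Y.card :=
      Finset.card_image_le.trans (by rw [Finset.card_product])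
    have h5 : X.card * Y.card ≤ (s - 1) * (N - 1) := Nat.mul_le_mul hXc hYc.le
    omega
  -- the load of a plane
  have hplaneload : ∀ H : L, rk H = 3 → H ≠ Q → ∃ k : ℕ, k ≤ s ∧
      (T.filter (fun t => H ∈ ({t.1 ⊔ t.2.1, t.1 ⊔ t.2.2, t.1 ⊔ t.2.1 ⊔ t.2.2} : Finset L))).card ≤
        (N - k) * (k * (k - 1)) := by
    intro H hH hHQ
    refine ⟨(P.filter (· ≤ H)).card, card_two_planes hA (by omega) hs hH hQ hHQ, ?_⟩
    set K := P.filter (· ≤ H) with hK
    set Z := (A.filter (· ≤ H)).filter (fun z => ¬ z ≤ Q) with hZ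
    have hZc : Z.card ≤ N - K.card := by
      have h1 : ((A.filter (· ≤ H)).filter (· ≤ Q)).card + Z.card = (A.filter (· ≤ H)).card :=
        Finset.card_filter_add_card_filter_not (s := A.filter (· ≤ H)) (· ≤ Q)
      have h2 : (A.filter (· ≤ H)).filter (· ≤ Q) = K := by
        rw [hK, hPdef, Finset.filter_filter, Finset.filter_filter]
        refine Finset.filter_congr fun x _ => ?_
        exact and_comm
      rw [h2] at h1
      have h4 := hmax H hH
      omega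
    have hD : K.offDiag.card = K.card * (K.card - 1) := by
      rw [Finset.offDiag_card, Nat.mul_sub, mul_one]
    rw [← hD]
    refine le_trans ?_ (Nat.mul_le_mul hZc le_rfl)
    rw [← Finset.card_product]
    refine Finset.card_le_card_of_injOn (fun t => (t.1, (t.2.1, t.2.2))) ?_ ?_
    · rintro ⟨z, y, y'⟩ ht
      rw [Finset.mem_coe, Finset.mem_filter, mT] at ht
      obtain ⟨⟨⟨hz, hy, hy'⟩, hzQ, hzo, hne, hno⟩, hg'⟩ := ht
      simp only [Finset.mem_insert, Finset.mem_singleton] at hz hy hy' hzQ hzo hne hno hg'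
      rw [Finset.mem_coe, Finset.mem_product, Finset.mem_offDiag]
      rcases hg' with h | h | h
      · have h5 := rl z hz hzQ y hy
        rw [← h] at h5
        omega
      · have h5 := rl z hz hzQ y' hy'
        rw [← h] at h5
        omega
      · exact ⟨Finset.mem_filter.mpr ⟨Finset.mem_filter.mpr
            ⟨hz, h ▸ le_sup_left.trans le_sup_left⟩, hzQ⟩,
          Finset.mem_filter.mpr ⟨hy, h ▸ le_sup_right.trans le_sup_left⟩,
          Finset.mem_filter.mpr ⟨hy', h ▸ le_sup_right⟩, hne⟩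
    · rintro ⟨z, y, y'⟩ _ ⟨z2, y2, y2'⟩ _ h
      exact h
  -- the number of vertices of a user
  have hcount : ∀ z ∈ U, (N - 1) * (N - s) ≤ (T.filter (fun t => t.1 = z)).card := by
    intro z hzU
    obtain ⟨hz, hzQ, hzo⟩ := (mU z).mp hzU
    set G := P.filter (fun y => ¬ o ≤ z ⊔ y) with hG
    have hGc : N - 1 ≤ G.card := by
      have h1 : (P.filter (fun y => o ≤ z ⊔ y)).card + G.card = P.card :=
        Finset.card_filter_add_card_filter_not (s := P) (fun y => o ≤ z ⊔ y)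
      have h2 : (P.filter (fun y => o ≤ z ⊔ y)).card ≤ 1 := by
        rw [Finset.card_le_one]
        intro y hy y' hy'
        rw [Finset.mem_filter] at hy hy'
        have e1 : z ⊔ o = z ⊔ y := line_eq (hA z hz) (hA o ho) hzo le_sup_left hy.2
          (rl z hz hzQ y hy.1)
        have e2 : z ⊔ o = z ⊔ y' := line_eq (hA z hz) (hA o ho) hzo le_sup_left hy'.2
          (rl z hz hzQ y' hy'.1)
        exact hone (z ⊔ y) (rl z hz hzQ y hy.1) (fun h' => hzQ (le_sup_left.trans h')) y hy.1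
          y' hy'.1 le_sup_right (e1 ▸ e2 ▸ le_sup_right)
      omega
    have hKc : ∀ y ∈ G, N - s ≤ (P.filter (fun y' => y ≠ y' ∧ ¬ o ≤ z ⊔ y ⊔ y')).card := by
      intro y hy
      rw [hG, Finset.mem_filter] at hy
      obtain ⟨hy, hoy⟩ := hy
      have h0 : rk (z ⊔ y ⊔ o) = 3 := by
        rw [rk_sup_atom (hA o ho) hoy, rl z hz hzQ y hy]
      have h1 : (P.filter (fun y' => y ≠ y' ∧ ¬ o ≤ z ⊔ y ⊔ y')).card +
          (P.filter (fun y' => ¬ (y ≠ y' ∧ ¬ o ≤ z ⊔ y ⊔ y'))).card = P.card :=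
        Finset.card_filter_add_card_filter_not (s := P)
          (fun y' => y ≠ y' ∧ ¬ o ≤ z ⊔ y ⊔ y')
      have h2 : (P.filter (fun y' => ¬ (y ≠ y' ∧ ¬ o ≤ z ⊔ y ⊔ y'))).card ≤ s := by
        refine le_trans (Finset.card_le_card fun y' hy' => ?_)
          (card_two_planes hA (by omega) hs h0 hQ
            (fun h' => hzQ (h' ▸ le_sup_left.trans le_sup_left)))
        rw [Finset.mem_filter] at hy' ⊢
        refine ⟨hy'.1, ?_⟩
        by_cases hne : y = y'
        · rw [← hne]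
          exact le_sup_right.trans le_sup_left
        · have h5 : o ≤ z ⊔ y ⊔ y' := by
            by_contra h6
            exact hy'.2 ⟨hne, h6⟩
          have h6 : z ⊔ y ⊔ o = z ⊔ y ⊔ y' := eq_of_le_of_rk (sup_le le_sup_left h5)
            (by rw [h0, rp z hz hzQ y hy y' hy'.1 hne])
          rw [h6]
          exact le_sup_right
      omega
    calc (N - 1) * (N - s) ≤ ∑ y ∈ G, (N - s) := by
          rw [Finset.sum_const, smul_eq_mul]
          exact Nat.mul_le_mul hGc le_rfl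
      _ ≤ ∑ y ∈ G, (P.filter (fun y' => y ≠ y' ∧ ¬ o ≤ z ⊔ y ⊔ y')).card :=
          Finset.sum_le_sum hKc
      _ = (G.sigma (fun y => P.filter (fun y' => y ≠ y' ∧ ¬ o ≤ z ⊔ y ⊔ y'))).card :=
          (Finset.card_sigma _ _).symm
      _ ≤ (T.filter (fun t => t.1 = z)).card := by
          refine Finset.card_le_card_of_injOn (fun p => (z, p.1, p.2)) ?_ ?_
          · rintro ⟨y, y'⟩ h
            rw [Finset.mem_coe, Finset.mem_sigma] at h
            have h1 := (Finset.mem_filter.mp h.1).1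
            obtain ⟨h3, h4, h5⟩ := Finset.mem_filter.mp h.2
            simp only at h1 h3 h4 h5
            rw [Finset.mem_coe, Finset.mem_filter, mT]
            exact ⟨⟨⟨hz, h1, h3⟩, hzQ, hzo, h4, h5⟩, rfl⟩
          · rintro ⟨y, y'⟩ _ ⟨y2, y2'⟩ _ h
            simp only [Prod.mk.injEq, true_and] at h
            obtain ⟨rfl, rfl⟩ := h
            rfl
  -- the choice
  have hnQ : ∀ z y : L, ¬ z ≤ Q → ¬ z ⊔ y ≤ Q := fun z y h h' => h (le_sup_left.trans h')
  obtain ⟨f, hf1, hf2⟩ := rainbow_card T U (fun t => t.1)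
    (fun t => ({t.1 ⊔ t.2.1, t.1 ⊔ t.2.2, t.1 ⊔ t.2.1 ⊔ t.2.2} : Finset L))
    ((N - 1) * (N - s)) (Nat.mul_pos (by omega) (by omega))
    (fun t ht => by
      rw [mT] at ht
      exact (mU _).mpr ⟨ht.1.1, ht.2.1, ht.2.2.1⟩)
    (by
      intro t ht
      rw [mT] at ht
      obtain ⟨⟨hz, hy, hy'⟩, hzQ, hzo, hne, hno⟩ := ht
      refine le_trans (sum_three_le _ _ _ _) ?_
      have h1 := hlineload (t.1 ⊔ t.2.1) (rl _ hz hzQ _ hy) (hnQ _ _ hzQ) _ hy le_sup_right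
      have h2 := hlineload (t.1 ⊔ t.2.2) (rl _ hz hzQ _ hy') (hnQ _ _ hzQ) _ hy' le_sup_right
      obtain ⟨k, hk, h4⟩ := hplaneload (t.1 ⊔ t.2.1 ⊔ t.2.2) (rp _ hz hzQ _ hy _ hy' hne)
        (fun h' => hzQ (h' ▸ le_sup_left.trans le_sup_left))
      have h5 : (N - k) * (k * (k - 1)) + 2 * (2 * ((s - 1) * (N - 1))) ≤
          (N - 1) * (N - s) := by
        have h6 : ((s : ℤ)) ^ 2 + 3 * s + 1 ≤ N := by exact_mod_cast hN
        have h7 := arith_mono (N := N) (s := s) (k := k) (by positivity) (by exact_mod_cast hk) h6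
        have h8 := arith_total (N := N) (s := s) (by exact_mod_cast (show 1 ≤ s by omega)) h6
        have e1 : ((N - k : ℕ) : ℤ) = (N : ℤ) - k := Nat.cast_sub (by omega)
        have e2 : ((s - 1 : ℕ) : ℤ) = (s : ℤ) - 1 := by
          rw [Nat.cast_sub (by omega)]; simp
        have e3 : ((N - 1 : ℕ) : ℤ) = (N : ℤ) - 1 := by
          rw [Nat.cast_sub (by omega)]; simp
        have e4 : ((N - s : ℕ) : ℤ) = (N : ℤ) - s := Nat.cast_sub (by omega)
        have e5 : ((k * (k - 1) : ℕ) : ℤ) = (k : ℤ) * (k - 1) := by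
          rcases Nat.eq_zero_or_pos k with h | h
          · simp [h]
          · push_cast [Nat.cast_sub (show 1 ≤ k by omega)]
            ring
        have h9 : (((N - k) * (k * (k - 1)) + 2 * (2 * ((s - 1) * (N - 1))) : ℕ) : ℤ) ≤
            (((N - 1) * (N - s) : ℕ) : ℤ) := by
          rw [Nat.cast_add, Nat.cast_mul (N - k), e1, e5, Nat.cast_mul 2, Nat.cast_mul 2,
            Nat.cast_mul (s - 1), e2, e3, Nat.cast_mul (N - 1), e3, e4]
          push_cast
          linarith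
        exact_mod_cast h9
      omega)
    hcount
  -- peel
  have key : ∀ x ∈ A, x ∉ insert o P → (f x).1 = x ∧ (f x).2.1 ∈ P ∧ (f x).2.2 ∈ P ∧
      (f x).2.1 ≠ (f x).2.2 ∧ ¬ o ≤ x ⊔ (f x).2.1 ⊔ (f x).2.2 ∧ ¬ x ≤ Q ∧ x ≠ o ∧ x ∈ U := by
    intro x hx hxB
    obtain ⟨h1, h2⟩ := hnB x hx hxB
    have hxU : x ∈ U := (mU x).mpr ⟨hx, h1, h2⟩
    obtain ⟨h4, h5⟩ := hf1 x hxU
    rw [mT] at h4
    obtain ⟨⟨k1, k2, k3⟩, k4, k5, k6, k7⟩ := h4
    rw [h5] at k7
    exact ⟨h5, k2, k3, k6, k7, h1, h2, hxU⟩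
  have hres : ∀ x ∈ A, x ∉ insert o P → ∀ q : L, (q = x ⊔ (f x).2.1 ∨ q = x ⊔ (f x).2.2 ∨
      q = x ⊔ (f x).2.1 ⊔ (f x).2.2) → ∀ y ∈ A, y ∉ insert o P →
      (q = y ⊔ (f y).2.1 ∨ q = y ⊔ (f y).2.2 ∨ q = y ⊔ (f y).2.1 ⊔ (f y).2.2) → x = y := by
    intro x hx hxB q hq y hy hyB hq'
    by_contra hne
    obtain ⟨h1, -, -, -, -, -, -, hxU⟩ := key x hx hxB
    obtain ⟨h2, -, -, -, -, -, -, hyU⟩ := key y hy hyB
    have h4 := hf2 x hxU y hyU hne
    rw [Finset.disjoint_left] at h4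
    refine h4 (a := q) ?_ ?_
    · simp only [Finset.mem_insert, Finset.mem_singleton]
      rw [h1]
      exact hq
    · simp only [Finset.mem_insert, Finset.mem_singleton]
      rw [h2]
      exact hq'
  -- a line through `x` off `Q` which does not pass through `o`
  have hline : ∀ x ∈ A, ¬ x ≤ Q → ∀ l, rk l = 2 → x ≤ l → ¬ o ≤ l →
      ∀ a ∈ insert o P, ∀ e ∈ insert o P, a ≠ e → a ≤ l → e ≤ l → False := by
    intro x hx hxQ l hl hxl hol a ha e he hae hal hel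
    rcases hBm a ha with rfl | ⟨ha1, ha2⟩
    · exact hol hal
    · rcases hBm e he with rfl | ⟨he1, he2⟩
      · exact hol hel
      · have h5 := line_eq (hA a ha1) (hA e he1) hae hal hel hl
        exact hxQ (hxl.trans (h5 ▸ sup_le ha2 he2))
  have hplane : ∀ x ∈ A, ¬ x ≤ Q → ∀ p, rk p = 3 → x ≤ p → ¬ o ≤ p →
      ∀ a ∈ insert o P, ∀ e ∈ insert o P, ∀ t ∈ insert o P, rk (a ⊔ e ⊔ t) = 3 →
      a ≤ p → e ≤ p → t ≤ p → False := by
    intro x hx hxQ p hp hxp hop a ha e he t ht hr hap hep htp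
    rcases hBm a ha with rfl | ⟨ha1, ha2⟩
    · exact hop hap
    rcases hBm e he with rfl | ⟨he1, he2⟩
    · exact hop hep
    rcases hBm t ht with rfl | ⟨ht1, ht2⟩
    · exact hop htp
    have h5 : a ⊔ e ⊔ t = p := eq_of_le_of_rk (sup_le (sup_le hap hep) htp) (by rw [hr, hp])
    exact hxQ (hxp.trans (h5 ▸ sup_le (sup_le ha2 he2) ht2))
  refine nPeel (B := insert o P) (c' := fun x => (f x).2.1) (d' := fun x => (f x).2.2) hA ?_ hB4
    ?_ ?_ ?_ ?_ ?_ ?_ ?_ ?_
  · intro a ha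
    rcases hBm a ha with rfl | h
    · exact ho
    · exact h.1
  · intro x hx hxB
    obtain ⟨h1, h2, h4, h5, h6, h7, h8, -⟩ := key x hx hxB
    exact ⟨((mP _).mp h2).1, ((mP _).mp h4).1, rp x hx h7 _ h2 _ h4 h5⟩
  · intro x hx hxB y hy hyB e
    exact hres x hx hxB _ (Or.inl rfl) y hy hyB (Or.inl e)
  · intro x hx hxB y hy hyB e
    exact hres x hx hxB _ (Or.inr (Or.inl rfl)) y hy hyB (Or.inr (Or.inl e))
  · intro x hx hxB y hy hyB e
    have h0 : x = y := hres x hx hxB _ (Or.inl rfl) y hy hyB (Or.inr (Or.inl e))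
    subst h0
    obtain ⟨h1, h2, h4, h5, h6, h7, h8, -⟩ := key x hx hxB
    exact h5 (hone (x ⊔ (f x).2.1) (rl x hx h7 _ h2) (hnQ _ _ h7) _ h2 _ h4 le_sup_right
      (e ▸ le_sup_right))
  · intro x hx hxB y hy hyB e
    exact hres x hx hxB _ (Or.inr (Or.inr rfl)) y hy hyB (Or.inr (Or.inr e))
  · intro x hx hxB
    obtain ⟨h1, h2, h4, h5, h6, h7, h8, -⟩ := key x hx hxB
    exact hline x hx h7 _ (rl x hx h7 _ h2) le_sup_left (fun h' => h6 (h'.trans le_sup_left))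
  · intro x hx hxB
    obtain ⟨h1, h2, h4, h5, h6, h7, h8, -⟩ := key x hx hxB
    exact hline x hx h7 _ (rl x hx h7 _ h4) le_sup_left
      (fun h' => h6 (h'.trans (sup_le (le_sup_left.trans le_sup_left) le_sup_right)))
  · intro x hx hxB
    obtain ⟨h1, h2, h4, h5, h6, h7, h8, -⟩ := key x hx hxB
    exact hplane x hx h7 _ (rp x hx h7 _ h2 _ h4 h5) (le_sup_left.trans le_sup_left) h6

end

open Classical in
/-- **The large plane.**  Every line carries at most `s` points and some plane at least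
`s ^ 2 + 3 * s + 1` points. -/
theorem crit4_bigplane {A : Finset L} (hA : ∀ a ∈ A, IsAtom a)
    (hr : rk (A.sup id) = 4) (s : ℕ) (hs : ∀ g, rk g = 2 → (A.filter (· ≤ g)).card ≤ s)
    {Q : L} (hQ : rk Q = 3) (hN : s ^ 2 + 3 * s + 1 ≤ (A.filter (· ≤ Q)).card) : Crit4 A := by
  have : Fintype L := Fintype.ofFinite L
  obtain ⟨P, hP, hmax⟩ := Finset.exists_max_image (Finset.univ.filter (fun H : L => rk H = 3))
    (fun H => (A.filter (· ≤ H)).card) ⟨Q, Finset.mem_filter.mpr ⟨Finset.mem_univ _, hQ⟩⟩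
  have hmax' : ∀ H, rk H = 3 → (A.filter (· ≤ H)).card ≤ (A.filter (· ≤ P)).card := fun H hH =>
    hmax H (Finset.mem_filter.mpr ⟨Finset.mem_univ _, hH⟩)
  exact crit4_bigplane_max hA hr s hs (Finset.mem_filter.mp hP).2 (hN.trans (hmax' Q hQ)) hmax'

end Pool.Agent.Helper83.BQ
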